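import Pool.Agent.W842.BV.Stms2

/-!
# BV-RK
-/

set_option autoImplicit false

namespace Pool.Agent.W290.BV

open Finset Pool.Agent.W842.BV

theorem t_RK : S_RK := by
  intro n M
  unfold Finset.vcDim
  refine Finset.sup_le fun S hS => ?_
  rw [mem_shatterer] at hS
  by_contra hcon
  have hcard : M.rank + 2 ≤ S.card := by omega
  -- the space
  let r : (Fin n → ℝ) →ₗ[ℝ] (S → ℝ) := LinearMap.funLeft ℝ ℝ (fun w : S => (w : Fin n))
  let W : Submodule ℝ (S → ℝ) :=
    (Submodule.span ℝ (Set.range M.row)).map r ⊔ Submodule.span ℝ {fun _ => (1 : ℝ)}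
  have hW : Module.finrank ℝ W ≤ M.rank + 1 := by
    refine (Submodule.finrank_add_le_finrank_add_finrank _ _).trans ?_
    refine Nat.add_le_add ?_ ?_
    · rw [Matrix.rank_eq_finrank_span_row]
      exact Submodule.finrank_map_le _ _
    · refine (finrank_span_le_card _).trans ?_
      simp
  have hlt : W < ⊤ := by
    rw [lt_top_iff_ne_top]
    intro h
    rw [h, finrank_top, Module.finrank_fintype_fun_eq_card, Fintype.card_coe] at hW
    omega
  obtain ⟨f, hf0, hf⟩ := Submodule.exists_le_ker_of_lt_top W hlt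
  have key : ∃ g : (S → ℝ) →ₗ[ℝ] ℝ, W ≤ LinearMap.ker g ∧ ∃ w, g (Pi.single w 1) < 0 := by
    have : ∃ w, f (Pi.single w 1) ≠ 0 := by
      by_contra h
      push Not at h
      apply hf0
      refine LinearMap.pi_ext' fun w => ?_
      refine LinearMap.ext_ring ?_
      simpa using h w
    obtain ⟨w, hw⟩ := this
    rcases lt_or_gt_of_ne hw with h | h
    · exact ⟨f, hf, w, h⟩
    · refine ⟨-f, ?_, w, by simpa using h⟩
      intro v hv
      have := hf hv
      simp only [LinearMap.mem_ker, LinearMap.neg_apply, neg_eq_zero] at this ⊢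
      exact this
  obtain ⟨g, hg, w₀, hw₀⟩ := key
  let t : Finset (Fin n) := S.filter (fun w => ∃ h : w ∈ S, 0 ≤ g (Pi.single ⟨w, h⟩ 1))
  obtain ⟨u, hu, hut⟩ := hS (filter_subset _ _ : t ⊆ S)
  obtain ⟨b, -, rfl⟩ := mem_image.mp hu
  have hiff : ∀ w : S, (1 / 2 : ℝ) ≤ M b w ↔ 0 ≤ g (Pi.single w 1) := by
    intro w
    have h1 := Finset.ext_iff.mp hut (w : Fin n)
    simp only [mem_inter, mem_filter, mem_univ, true_and] at h1
    constructor
    · intro h
      obtain ⟨_, _, h2⟩ := h1.mp ⟨w.2, h⟩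
      exact h2
    · intro h
      exact (h1.mpr ⟨w.2, w.2, h⟩).2
  have hmem : (fun w : S => M b w - 1 / 2) ∈ W := by
    have e : (fun w : S => M b w - 1 / 2) = r (M.row b) + (-(1 / 2 : ℝ)) • (fun _ => (1 : ℝ)) := by
      funext w
      simp only [r, Pi.add_apply, Pi.smul_apply, LinearMap.funLeft_apply, Matrix.row, smul_eq_mul,
        mul_one]
      ring
    rw [e]
    refine Submodule.add_mem _ ?_ ?_
    · exact Submodule.mem_sup_left (Submodule.mem_map_of_mem (Submodule.subset_span ⟨b, rfl⟩))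
    · exact Submodule.mem_sup_right (Submodule.smul_mem _ _ (Submodule.mem_span_singleton_self _))
  have h0 : g (fun w : S => M b w - 1 / 2) = 0 := hg hmem
  have hsum : g (fun w : S => M b w - 1 / 2) = ∑ w : S, (M b w - 1 / 2) * g (Pi.single w 1) := by
    rw [LinearMap.pi_apply_eq_sum_univ g]
    refine sum_congr rfl fun w _ => ?_
    rw [smul_eq_mul]
    congr 2
    funext j
    by_cases h : w = j
    · subst h; simp
    · simp [h, Pi.single_apply, Ne.symm h]
  have hpos : 0 < ∑ w : S, (M b w - 1 / 2) * g (Pi.single w 1) := by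
    refine sum_pos' ?_ ⟨w₀, mem_univ _, ?_⟩
    · intro w _
      by_cases h : 0 ≤ g (Pi.single w 1)
      · exact mul_nonneg (by linarith [(hiff w).mpr h]) h
      · have h1 : ¬ (1 / 2 : ℝ) ≤ M b w := fun h2 => h ((hiff w).mp h2)
        exact mul_nonneg_of_nonpos_of_nonpos (by linarith) (by linarith)
    · have h1 : ¬ (1 / 2 : ℝ) ≤ M b w₀ := fun h2 => (not_le.mpr hw₀) ((hiff w₀).mp h2)
      exact mul_pos_of_neg_of_neg (by linarith) hw₀
  rw [hsum] at h0
  linarith

end Pool.Agent.W290.BV
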